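import Pool.Agent.X135.DL.Wall
import Pool.Agent.H984R4.NP.SumA

/-!
The mean number of steps of the exploration path if there are closed walls near the wired arc.
-/

set_option autoImplicit false

namespace Pool.Agent.X135.DL

open H974 Finset H342P H984P H984N Pool.Agent.Y244.PC Pool.Agent.X135.PL

theorem sixteen : (16:ℝ) ^ (1/4:ℝ) = 2 := by
  rw [show (16:ℝ) = 2 ^ (4:ℝ) by norm_num, ← Real.rpow_mul (by norm_num)]
  norm_num

theorem pow_le {m r : ℝ} (hm : 0 < m) (h : m ≤ 16 * r) :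
    r ^ (-(1/4):ℝ) ≤ 2 * m ^ (-(1/4):ℝ) := by
  have h1 : (m / 16) ^ (-(1/4):ℝ) = 2 * m ^ (-(1/4):ℝ) := by
    rw [Real.div_rpow hm.le (by norm_num), Real.rpow_neg (by norm_num : (0:ℝ) ≤ 16), sixteen,
      div_inv_eq_mul, mul_comm]
  rw [← h1]
  exact Real.rpow_le_rpow_of_nonpos (by positivity) (by linarith) (by norm_num)

/-- one point bound together with the wall -/
theorem one_wall {C : ℝ} (hC : 0 < C) (hU : TwoUp C (1/4)) : ∃ K : ℝ, 0 < K ∧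
    ∀ (D : Dm) (a : ℤ), D.Ok → 1 ≤ a → ∀ σ : St,
    P D.edges (fun F => D.Vis F σ ∧ Wl D a F) ≤
      K * (ph 1 (1/4) (D.bd σ.1) + (a:ℝ) ^ (-(1/4):ℝ)) * P D.edges (Wl D a) := by
  have hk := kN_pos
  refine ⟨2 + 2 * C / kN, by positivity, ?_⟩
  intro D a hD ha σ
  obtain ⟨W, hW⟩ : ∃ W : ℝ, W = P D.edges (Wl D a) := ⟨_, rfl⟩
  have hW0 : 0 ≤ W := by rw [hW]; exact Pr_nonneg hok _ _
  rw [← hW]
  have ha0 : (0:ℝ) < a := by exact_mod_cast (by omega : 0 < a)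
  have hph : 0 ≤ ph 1 (1/4) (D.bd σ.1) := ph_nonneg zero_le_one _
  have ha4 : 0 < (a:ℝ) ^ (-(1/4):ℝ) := by positivity
  have hK2 : 0 < 2 * C / kN := by positivity
  have htriv : P D.edges (fun F => D.Vis F σ ∧ Wl D a F) ≤ W := by
    rw [hW]; exact Pr_mono hok fun F _ h => h.2
  rcases lt_or_ge (D.bd σ.1) 6 with hb | hb
  · have h1 : 1 ≤ 2 * ph 1 (1/4) (D.bd σ.1) := by
      unfold ph
      split_ifs with h
      · norm_num
      · rw [one_mul]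
        have h2 : (0:ℝ) < (D.bd σ.1 : ℝ) := by exact_mod_cast (by omega : 0 < D.bd σ.1)
        have h3 := pow_le (m := (D.bd σ.1 : ℝ)) (r := 1) h2 (by
          have : (D.bd σ.1 : ℝ) < 6 := by exact_mod_cast hb
          linarith)
        rwa [Real.one_rpow] at h3
    have h2 : 1 ≤ (2 + 2 * C / kN) * (ph 1 (1/4) (D.bd σ.1) + (a:ℝ) ^ (-(1/4):ℝ)) := by
      have := mul_nonneg hK2.le (add_nonneg hph ha4.le)
      nlinarith
    calc _ ≤ W := htriv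
      _ = 1 * W := (one_mul W).symm
      _ ≤ _ := mul_le_mul_of_nonneg_right h2 hW0
  rcases lt_or_ge a 13 with hb2 | hb2
  · have h1 : 1 ≤ 2 * (a:ℝ) ^ (-(1/4):ℝ) := by
      have h3 := pow_le (m := (a : ℝ)) (r := 1) ha0 (by
        have : (a : ℝ) < 13 := by exact_mod_cast hb2
        linarith)
      rwa [Real.one_rpow] at h3
    have h2 : 1 ≤ (2 + 2 * C / kN) * (ph 1 (1/4) (D.bd σ.1) + (a:ℝ) ^ (-(1/4):ℝ)) := by
      have := mul_nonneg hK2.le (add_nonneg hph ha4.le)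
      nlinarith
    calc _ ≤ W := htriv
      _ = 1 * W := (one_mul W).symm
      _ ≤ _ := mul_le_mul_of_nonneg_right h2 hW0
  -- the main case
  obtain ⟨ρ, hρ⟩ : ∃ ρ : ℤ, ρ = min (D.bd σ.1 / 2) ((a - 1) / 4) := ⟨_, rfl⟩
  have r1 : 3 ≤ ρ := by rw [hρ]; exact le_min (by omega) (by omega)
  have r2 : 2 * ρ ≤ D.bd σ.1 := by
    have : ρ ≤ D.bd σ.1 / 2 := by rw [hρ]; exact min_le_left _ _
    omega
  have r3 : 4 * ρ < a := by
    have : ρ ≤ (a - 1) / 4 := by rw [hρ]; exact min_le_right _ _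
    omega
  have r4 : D.bd σ.1 ≤ 16 * ρ ∨ a ≤ 16 * ρ := by
    rcases min_choice (D.bd σ.1 / 2) ((a - 1) / 4) with h | h
    · left; rw [hρ, h]; omega
    · right; rw [hρ, h]; omega
  have hρ0 : (0:ℝ) < ρ := by exact_mod_cast (by omega : 0 < ρ)
  have hbd0 : (0:ℝ) < (D.bd σ.1 : ℝ) := by exact_mod_cast (by omega : 0 < D.bd σ.1)
  have r5 : (ρ:ℝ) ^ (-(1/4):ℝ) ≤ 2 * (ph 1 (1/4) (D.bd σ.1) + (a:ℝ) ^ (-(1/4):ℝ)) := by
    rcases r4 with h | h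
    · have h1 := pow_le (m := (D.bd σ.1 : ℝ)) (r := ρ) hbd0 (by exact_mod_cast h)
      have h2 : ph 1 (1/4) (D.bd σ.1) = (D.bd σ.1 : ℝ) ^ (-(1/4):ℝ) := by
        unfold ph
        rw [if_neg (by omega), one_mul]
      rw [h2]
      linarith
    · have h1 := pow_le (m := (a : ℝ)) (r := ρ) ha0 (by exact_mod_cast h)
      linarith
  obtain ⟨A, hA⟩ : ∃ A : Finset Edg → Prop,
      A = fun F : Finset Edg => Two σ.1 (face σ) ρ (↑F : Set Edg) := ⟨_, rfl⟩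
  have hsub : RE (σ.1.1 - ρ) (σ.1.1 + ρ) (σ.1.2 - ρ) (σ.1.2 + ρ) ⊆ D.edges :=
    one_box (by omega)
  have s1 : P D.edges (fun F => D.Vis F σ ∧ Wl D a F) ≤
      P D.edges (fun F => A F ∧ Wl D a F) := by
    refine Pr_mono hok fun F hF h => ⟨?_, h.2⟩
    rw [hA]
    exact vis_two hD hF h.1 (by omega) (by omega)
  have s2 : kN * P D.edges (fun F => A F ∧ Wl D a F) ≤ P D.edges A * W := by
    rw [hW]
    refine wl_dec r1 r3 r2 ?_
    intro F _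
    rw [hA]
    exact two_inter (by omega) F (Finset.Subset.refl _)
  have s3 : P D.edges A ≤ C * (ρ:ℝ) ^ (-(1/4):ℝ) := by
    rw [hA]
    show Pr (fun _ => (1/2:ℝ)) D.edges (fun F => Two σ.1 (face σ) ρ (↑F)) ≤ _
    rw [pr_two (by omega) hsub]
    exact hU _ _ _ (by omega) (one_inc σ)
  have s4 : P D.edges (fun F => A F ∧ Wl D a F) ≤ C * (ρ:ℝ) ^ (-(1/4):ℝ) / kN * W := by
    have h1 : kN * P D.edges (fun F => A F ∧ Wl D a F) ≤ C * (ρ:ℝ) ^ (-(1/4):ℝ) * W :=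
      s2.trans (mul_le_mul_of_nonneg_right s3 hW0)
    rw [div_mul_eq_mul_div, le_div_iff₀ hk]
    linarith
  refine (s1.trans s4).trans ?_
  apply mul_le_mul_of_nonneg_right _ hW0
  have h3 : C * (ρ:ℝ) ^ (-(1/4):ℝ) / kN ≤
      C * (2 * (ph 1 (1/4) (D.bd σ.1) + (a:ℝ) ^ (-(1/4):ℝ))) / kN := by
    apply div_le_div_of_nonneg_right _ hk.le
    exact mul_le_mul_of_nonneg_left r5 hC.le
  refine h3.trans ?_
  have h4 : C * (2 * (ph 1 (1/4) (D.bd σ.1) + (a:ℝ) ^ (-(1/4):ℝ))) / kN =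
      2 * C / kN * (ph 1 (1/4) (D.bd σ.1) + (a:ℝ) ^ (-(1/4):ℝ)) := by ring
  rw [h4, add_mul]
  have := add_nonneg hph ha4.le
  linarith

/-! ### Sums -/

theorem line_le (N : ℕ) (hN : 1 ≤ N) :
    ∑ x ∈ Finset.Icc (0:ℤ) N, ph 1 (1/4) x ≤ 3 * (N:ℝ) ^ (3/4:ℝ) := by
  have h := suma_line (C := 1) (b := 1/4) zero_le_one (by norm_num) (by norm_num) N
    (n := (N:ℝ)) (by exact_mod_cast hN) le_rfl
  have h0 : (0:ℝ) ≤ (N:ℝ) ^ (3/4:ℝ) := by positivity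
  rw [show (1:ℝ) - 1/4 = 3/4 by norm_num] at h
  refine h.trans ?_
  apply mul_le_mul_of_nonneg_right _ h0
  norm_num

theorem prod_bd {D : Dm} {X Y : Finset ℤ} {cX cY A1 A2 : ℝ}
    (hX : (X.card : ℝ) ≤ cX) (hY : (Y.card : ℝ) ≤ cY)
    (h1 : ∑ x ∈ X, (ph 1 (1/4) (x - D.l) + ph 1 (1/4) (D.r - x)) ≤ A1)
    (h2 : ∑ y ∈ Y, (ph 1 (1/4) (y - 0) + ph 1 (1/4) (D.h - y)) ≤ A2) :
    ∑ v ∈ X ×ˢ Y, ph 1 (1/4) (D.bd v) ≤ cY * A1 + cX * A2 := by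
  have hnn : ∀ k, 0 ≤ ph 1 (1/4) k := fun k => ph_nonneg zero_le_one k
  have s1 : ∑ v ∈ X ×ˢ Y, ph 1 (1/4) (D.bd v) ≤ ∑ v ∈ X ×ˢ Y,
      ((ph 1 (1/4) (v.1 - D.l) + ph 1 (1/4) (D.r - v.1)) +
        (ph 1 (1/4) (v.2 - 0) + ph 1 (1/4) (D.h - v.2))) :=
    Finset.sum_le_sum fun v _ => suma_min zero_le_one D v
  refine s1.trans ?_
  rw [Finset.sum_add_distrib, Finset.sum_product, Finset.sum_product]
  simp only [Finset.sum_const, nsmul_eq_mul]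
  rw [← Finset.mul_sum]
  have n1 : 0 ≤ ∑ x ∈ X, (ph 1 (1/4) (x - D.l) + ph 1 (1/4) (D.r - x)) :=
    Finset.sum_nonneg fun x _ => add_nonneg (hnn _) (hnn _)
  have n2 : 0 ≤ ∑ y ∈ Y, (ph 1 (1/4) (y - 0) + ph 1 (1/4) (D.h - y)) :=
    Finset.sum_nonneg fun x _ => add_nonneg (hnn _) (hnn _)
  have c1 : (0:ℝ) ≤ cY := le_trans (Nat.cast_nonneg _) hY
  have c2 : (0:ℝ) ≤ cX := le_trans (Nat.cast_nonneg _) hX
  exact add_le_add (mul_le_mul hY h1 n1 c1) (mul_le_mul hX h2 n2 c2)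

theorem near_le (a : ℕ) (ha : 1 ≤ a) (x0 : ℤ) :
    ∑ x ∈ Finset.Icc x0 (x0 + 2 * a), ph 1 (1/4) (x - x0) ≤ 6 * (a:ℝ) ^ (3/4:ℝ) := by
  rw [suma_shift (ph 1 (1/4)) x0 (x0 + 2 * a) (2 * a) (by push_cast; ring)]
  refine (line_le (2 * a) (by omega)).trans ?_
  push_cast
  rw [Real.mul_rpow (by norm_num) (by positivity)]
  have h1 : (2:ℝ) ^ (3/4:ℝ) ≤ 2 := by
    have := Real.rpow_le_rpow_of_exponent_le (by norm_num : (1:ℝ) ≤ 2)
      (show (3/4:ℝ) ≤ 1 by norm_num)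
    rwa [Real.rpow_one] at this
  have h0 : (0:ℝ) ≤ (a:ℝ) ^ (3/4:ℝ) := by positivity
  nlinarith

theorem near_le' (a : ℕ) (ha : 1 ≤ a) (x1 : ℤ) :
    ∑ x ∈ Finset.Icc (x1 - 2 * a) x1, ph 1 (1/4) (x1 - x) ≤ 6 * (a:ℝ) ^ (3/4:ℝ) := by
  rw [suma_refl (ph 1 (1/4)) (x1 - 2 * a) x1 (2 * a) (by push_cast; ring)]
  refine (line_le (2 * a) (by omega)).trans ?_
  push_cast
  rw [Real.mul_rpow (by norm_num) (by positivity)]
  have h1 : (2:ℝ) ^ (3/4:ℝ) ≤ 2 := by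
    have := Real.rpow_le_rpow_of_exponent_le (by norm_num : (1:ℝ) ≤ 2)
      (show (3/4:ℝ) ≤ 1 by norm_num)
    rwa [Real.rpow_one] at this
  have h0 : (0:ℝ) ≤ (a:ℝ) ^ (3/4:ℝ) := by positivity
  nlinarith

theorem a_pow {a : ℝ} (ha : 0 < a) : a * a ^ (-(1/4):ℝ) = a ^ (3/4:ℝ) := by
  nth_rewrite 1 [← Real.rpow_one a]
  rw [← Real.rpow_add ha]
  norm_num

theorem far_le (a : ℕ) (ha : 1 ≤ a) (X : Finset ℤ) (hX : (X.card : ℝ) ≤ 3 * a) (g : ℤ → ℤ)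
    (hg : ∀ x ∈ X, (a:ℤ) ≤ g x) :
    ∑ x ∈ X, ph 1 (1/4) (g x) ≤ 3 * (a:ℝ) ^ (3/4:ℝ) := by
  have ha0 : (0:ℝ) < a := by exact_mod_cast ha
  have h1 : ∀ x ∈ X, ph 1 (1/4) (g x) ≤ (a:ℝ) ^ (-(1/4):ℝ) := by
    intro x hx
    have h2 := hg x hx
    unfold ph
    rw [if_neg (by omega), one_mul]
    exact Real.rpow_le_rpow_of_nonpos ha0 (by exact_mod_cast h2) (by norm_num)
  refine (Finset.sum_le_sum h1).trans ?_
  rw [Finset.sum_const, nsmul_eq_mul, ← a_pow ha0, ← mul_assoc]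
  exact mul_le_mul_of_nonneg_right hX (by positivity)

theorem mix_le {a w : ℝ} (ha : 0 < a) (haw : a ≤ w) : a * w ^ (3/4:ℝ) ≤ w * a ^ (3/4:ℝ) := by
  have hw : 0 < w := by linarith
  have h1 : a = a ^ (3/4:ℝ) * a ^ (1/4:ℝ) := by
    rw [← Real.rpow_add ha]; norm_num
  have h2 : w = w ^ (3/4:ℝ) * w ^ (1/4:ℝ) := by
    rw [← Real.rpow_add hw]; norm_num
  have h3 : a ^ (1/4:ℝ) ≤ w ^ (1/4:ℝ) := Real.rpow_le_rpow ha.le haw (by norm_num)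
  calc a * w ^ (3/4:ℝ) = (a ^ (3/4:ℝ) * w ^ (3/4:ℝ)) * a ^ (1/4:ℝ) := by
        nth_rewrite 1 [h1]; ring
    _ ≤ (a ^ (3/4:ℝ) * w ^ (3/4:ℝ)) * w ^ (1/4:ℝ) :=
        mul_le_mul_of_nonneg_left h3 (by positivity)
    _ = w * a ^ (3/4:ℝ) := by
        nth_rewrite 3 [h2]; ring

/-- the strips -/
noncomputable def Sp (D : Dm) (a : ℕ) : Finset Vtx :=
  (Finset.Icc D.l (D.l + 2 * a) ×ˢ Finset.Icc 0 D.h) ∪
  ((Finset.Icc D.l D.r ×ˢ Finset.Icc (0:ℤ) (0 + 2 * a)) ∪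
    (Finset.Icc D.l D.r ×ˢ Finset.Icc (D.h - 2 * a) D.h))

theorem sp_sum {D : Dm} {a : ℕ} (ha : 1 ≤ a) (h3 : 3 * (a:ℤ) ≤ D.h)
    (hw : 3 * (a:ℤ) ≤ D.r - D.l) :
    ∑ v ∈ Sp D a, (ph 1 (1/4) (D.bd v) + (a:ℝ) ^ (-(1/4):ℝ)) ≤
      84 * (((D.r - D.l : ℤ) : ℝ) + D.h) * (a:ℝ) ^ (3/4:ℝ) := by
  classical
  have ha0 : (0:ℝ) < a := by exact_mod_cast ha
  have ha1 : (1:ℝ) ≤ a := by exact_mod_cast ha
  obtain ⟨w, hwd⟩ : ∃ w : ℝ, w = ((D.r - D.l : ℤ) : ℝ) := ⟨_, rfl⟩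
  obtain ⟨h, hh⟩ : ∃ h : ℝ, h = (D.h : ℝ) := ⟨_, rfl⟩
  rw [← hwd, ← hh]
  have haw : 3 * (a:ℝ) ≤ w := by rw [hwd]; exact_mod_cast hw
  have hah : 3 * (a:ℝ) ≤ h := by rw [hh]; exact_mod_cast h3
  have hnn : ∀ v : Vtx, 0 ≤ ph 1 (1/4) (D.bd v) + (a:ℝ) ^ (-(1/4):ℝ) := fun v =>
    add_nonneg (ph_nonneg zero_le_one _) (by positivity)
  obtain ⟨q, hq⟩ : ∃ q : ℝ, q = (a:ℝ) ^ (3/4:ℝ) := ⟨_, rfl⟩
  have hq0 : 0 < q := by rw [hq]; positivity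
  rw [← hq]
  -- cardinalities
  have cn : ∀ x0 : ℤ, ((Finset.Icc x0 (x0 + 2 * a)).card : ℝ) ≤ 3 * a := by
    intro x0
    rw [Int.card_Icc]
    have : (x0 + 2 * (a:ℤ) + 1 - x0).toNat = 2 * a + 1 := by omega
    rw [this]; push_cast; linarith
  have cn' : ((Finset.Icc (D.h - 2 * (a:ℤ)) D.h).card : ℝ) ≤ 3 * a := by
    rw [Int.card_Icc]
    have : (D.h + 1 - (D.h - 2 * (a:ℤ))).toNat = 2 * a + 1 := by omega
    rw [this]; push_cast; linarith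
  obtain ⟨N, hN⟩ := Int.eq_ofNat_of_zero_le (show 0 ≤ D.r - D.l by omega)
  obtain ⟨M, hM⟩ := Int.eq_ofNat_of_zero_le (show 0 ≤ D.h - 0 by omega)
  have hNw : (N:ℝ) = w := by rw [hwd, hN]; simp
  have hMh : (M:ℝ) = h := by
    rw [hh]
    have : D.h = M := by omega
    rw [this]; simp
  have cw : ((Finset.Icc D.l D.r).card : ℝ) ≤ 2 * w := by
    rw [Int.card_Icc]
    have : (D.r + 1 - D.l).toNat = N + 1 := by omega
    rw [this]; push_cast; linarith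
  have ch : ((Finset.Icc 0 D.h).card : ℝ) ≤ 2 * h := by
    rw [Int.card_Icc]
    have : (D.h + 1 - 0).toNat = M + 1 := by omega
    rw [this]; push_cast; linarith
  have hN1 : 1 ≤ N := by omega
  have hM1 : 1 ≤ M := by omega
  -- line sums
  have fX : ∑ x ∈ Finset.Icc D.l D.r, (ph 1 (1/4) (x - D.l) + ph 1 (1/4) (D.r - x)) ≤
      6 * w ^ (3/4:ℝ) := by
    rw [Finset.sum_add_distrib, suma_shift (ph 1 (1/4)) D.l D.r N hN,
      suma_refl (ph 1 (1/4)) D.l D.r N hN]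
    have := line_le N hN1
    rw [hNw] at this
    linarith
  have fY : ∑ y ∈ Finset.Icc 0 D.h, (ph 1 (1/4) (y - 0) + ph 1 (1/4) (D.h - y)) ≤
      6 * h ^ (3/4:ℝ) := by
    rw [Finset.sum_add_distrib, suma_shift (ph 1 (1/4)) 0 D.h M hM,
      suma_refl (ph 1 (1/4)) 0 D.h M hM]
    have := line_le M hM1
    rw [hMh] at this
    linarith
  have nX : ∑ x ∈ Finset.Icc D.l (D.l + 2 * a), (ph 1 (1/4) (x - D.l) + ph 1 (1/4) (D.r - x)) ≤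
      9 * q := by
    rw [Finset.sum_add_distrib]
    have k1 := near_le a ha D.l
    have k2 := far_le a ha (Finset.Icc D.l (D.l + 2 * a)) (cn D.l) (fun x => D.r - x) (by
      intro x hx
      rw [Finset.mem_Icc] at hx
      show (a:ℤ) ≤ D.r - x
      omega)
    rw [← hq] at k1 k2
    linarith
  have nY : ∑ y ∈ Finset.Icc (0:ℤ) (0 + 2 * a), (ph 1 (1/4) (y - 0) + ph 1 (1/4) (D.h - y)) ≤
      9 * q := by
    rw [Finset.sum_add_distrib]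
    have k1 := near_le a ha 0
    have k2 := far_le a ha (Finset.Icc (0:ℤ) (0 + 2 * a)) (cn 0) (fun x => D.h - x) (by
      intro x hx
      rw [Finset.mem_Icc] at hx
      show (a:ℤ) ≤ D.h - x
      omega)
    rw [← hq] at k1 k2
    linarith
  have nY' : ∑ y ∈ Finset.Icc (D.h - 2 * (a:ℤ)) D.h,
      (ph 1 (1/4) (y - 0) + ph 1 (1/4) (D.h - y)) ≤ 9 * q := by
    rw [Finset.sum_add_distrib]
    have k1 := near_le' a ha D.h
    have k2 := far_le a ha (Finset.Icc (D.h - 2 * (a:ℤ)) D.h) cn' (fun x => x - 0) (by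
      intro x hx
      rw [Finset.mem_Icc] at hx
      show (a:ℤ) ≤ x - 0
      omega)
    rw [← hq] at k1 k2
    linarith
  have b1 := prod_bd (D := D) (cn D.l) ch nX fY
  have b2 := prod_bd (D := D) cw (cn 0) fX nY
  have b3 := prod_bd (D := D) cw cn' fX nY'
  have m1 : (a:ℝ) * h ^ (3/4:ℝ) ≤ h * q := by rw [hq]; exact mix_le ha0 (by linarith)
  have m2 : (a:ℝ) * w ^ (3/4:ℝ) ≤ w * q := by rw [hq]; exact mix_le ha0 (by linarith)
  -- constants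
  have kc : ∀ (X Y : Finset ℤ) (cX cY : ℝ), (X.card : ℝ) ≤ cX → (Y.card : ℝ) ≤ cY →
      ∑ v ∈ X ×ˢ Y, (ph 1 (1/4) (D.bd v) + (a:ℝ) ^ (-(1/4):ℝ)) ≤
        ∑ v ∈ X ×ˢ Y, ph 1 (1/4) (D.bd v) + cX * cY * (a:ℝ) ^ (-(1/4):ℝ) := by
    intro X Y cX cY hX hY
    rw [Finset.sum_add_distrib, Finset.sum_const, nsmul_eq_mul, Finset.card_product]
    push_cast
    have : (X.card:ℝ) * Y.card ≤ cX * cY :=
      mul_le_mul hX hY (Nat.cast_nonneg _) (le_trans (Nat.cast_nonneg _) hX)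
    have h4 : (0:ℝ) ≤ (a:ℝ) ^ (-(1/4):ℝ) := by positivity
    have := mul_le_mul_of_nonneg_right this h4
    linarith
  have c1 := kc _ _ _ _ (cn D.l) ch
  have c2 := kc _ _ _ _ cw (cn 0)
  have c3 := kc _ _ _ _ cw cn'
  have e1 : 3 * (a:ℝ) * (2 * h) * (a:ℝ) ^ (-(1/4):ℝ) = 6 * h * q := by
    rw [hq, ← a_pow ha0]; ring
  have e2 : 2 * w * (3 * (a:ℝ)) * (a:ℝ) ^ (-(1/4):ℝ) = 6 * w * q := by
    rw [hq, ← a_pow ha0]; ring
  rw [e1] at c1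
  rw [e2] at c2 c3
  have u1 : ∑ v ∈ Sp D a, (ph 1 (1/4) (D.bd v) + (a:ℝ) ^ (-(1/4):ℝ)) ≤
      ∑ v ∈ Finset.Icc D.l (D.l + 2 * (a:ℤ)) ×ˢ Finset.Icc 0 D.h,
        (ph 1 (1/4) (D.bd v) + (a:ℝ) ^ (-(1/4):ℝ)) +
      (∑ v ∈ Finset.Icc D.l D.r ×ˢ Finset.Icc (0:ℤ) (0 + 2 * a),
        (ph 1 (1/4) (D.bd v) + (a:ℝ) ^ (-(1/4):ℝ)) +
      ∑ v ∈ Finset.Icc D.l D.r ×ˢ Finset.Icc (D.h - 2 * (a:ℤ)) D.h,
        (ph 1 (1/4) (D.bd v) + (a:ℝ) ^ (-(1/4):ℝ))) := by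
    have un : ∀ (A B : Finset Vtx) (g : Vtx → ℝ), (∀ v, 0 ≤ g v) →
        ∑ v ∈ A ∪ B, g v ≤ ∑ v ∈ A, g v + ∑ v ∈ B, g v := by
      intro A B g hg
      rw [← Finset.sum_union_inter]
      exact le_add_of_nonneg_right (Finset.sum_nonneg fun v _ => hg v)
    unfold Sp
    refine (un _ _ _ hnn).trans ?_
    have := un (Finset.Icc D.l D.r ×ˢ Finset.Icc (0:ℤ) (0 + 2 * a))
      (Finset.Icc D.l D.r ×ˢ Finset.Icc (D.h - 2 * (a:ℤ)) D.h) _ hnn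
    linarith
  have w0 : 0 < w := by linarith
  have h0 : 0 < h := by linarith
  have z1 : 0 ≤ h * q := by positivity
  have z2 : 0 ≤ w * q := by positivity
  have f1 : 2 * h * (9 * q) + 3 * (a:ℝ) * (6 * h ^ (3/4:ℝ)) ≤ 36 * (h * q) := by nlinarith
  have f2 : 3 * (a:ℝ) * (6 * w ^ (3/4:ℝ)) + 2 * w * (9 * q) ≤ 36 * (w * q) := by nlinarith
  nlinarith

/-- the mean number of steps with the walls -/
theorem mean_wall {C : ℝ} (hC : 0 < C) (hU : TwoUp C (1/4)) : ∃ K : ℝ, 0 < K ∧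
    ∀ (D : Dm) (a : ℕ), D.Ok → 1 ≤ a → 3 * (a:ℤ) ≤ D.h → 3 * (a:ℤ) ≤ D.r - D.l →
    E D.edges (fun F => ind (Wl D a F) * ((D.len F : ℝ) + 1)) ≤
      K * (((D.r - D.l : ℤ) : ℝ) + D.h) * (a:ℝ) ^ (3/4:ℝ) * P D.edges (Wl D a) := by
  classical
  obtain ⟨K, hK, h1⟩ := one_wall hC hU
  refine ⟨336 * K, by positivity, ?_⟩
  intro D a hD ha h3 hw
  have hW0 : 0 ≤ P D.edges (Wl D a) := Pr_nonneg hok _ _
  have e1 : E D.edges (fun F => ind (Wl D a F) * ((D.len F : ℝ) + 1)) =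
      ∑ σ ∈ D.states, P D.edges (fun F => D.Vis F σ ∧ Wl D a F) := by
    have e2 : E D.edges (fun F => ind (Wl D a F) * ((D.len F : ℝ) + 1)) =
        E D.edges (fun F => ∑ σ ∈ D.states, ind (D.Vis F σ ∧ Wl D a F)) := by
      apply Ex_congr
      intro F hF
      have := Moments_sum hD hF (fun _ => (1 : ℝ))
      simp only [Finset.sum_const, Finset.card_range, nsmul_eq_mul, mul_one] at this
      push_cast at this
      rw [this, Finset.mul_sum]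
      refine Finset.sum_congr rfl fun σ _ => ?_
      rw [ind_and]
      ring
    rw [e2]
    exact Ex_sum _ _ _ _
  rw [e1]
  have e3 : ∀ σ ∈ D.states, P D.edges (fun F => D.Vis F σ ∧ Wl D a F) ≤
      if σ.1 ∈ Sp D a then
        K * (ph 1 (1/4) (D.bd σ.1) + (a:ℝ) ^ (-(1/4):ℝ)) * P D.edges (Wl D a) else 0 := by
    intro σ hσ
    split_ifs with h
    · have := h1 D a hD (by exact_mod_cast ha) σ
      push_cast at this
      exact this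
    · have : P D.edges (fun F => D.Vis F σ ∧ Wl D a F) ≤ P D.edges (fun _ => False) := by
        refine Pr_mono hok fun F hF hv => ?_
        obtain ⟨⟨k, hk, hkσ⟩, hwl⟩ := hv
        have hclu := (walk_clu hD hF hk).1
        rw [hkσ] at hclu
        have hin := clu_inR hD hF hclu
        have hdet := wl_det hD (by exact_mod_cast ha) hF hwl hclu
        unfold inR at hin
        apply h
        unfold Sp
        rw [Finset.mem_union, Finset.mem_union, Finset.mem_product, Finset.mem_product,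
          Finset.mem_product]
        simp only [Finset.mem_Icc]
        rcases hdet with hd | hd | hd
        · left; exact ⟨⟨hin.1.1, hd.le⟩, hin.2⟩
        · right; left; exact ⟨hin.1, hin.2.1, by omega⟩
        · right; right; exact ⟨hin.1, hd.le, hin.2.2⟩
      refine this.trans (le_of_eq ?_)
      have h5 := Pr_not (p := fun _ : Edg => (1/2:ℝ)) D.edges (fun _ => True)
      rw [Pr_true _ (fun _ _ => trivial), sub_self] at h5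
      rw [← h5]
      exact Pr_congr fun F _ => ⟨fun h => h.elim, fun h => (h trivial).elim⟩
  refine (Finset.sum_le_sum e3).trans ?_
  have e4 : ∑ σ ∈ D.states, (if σ.1 ∈ Sp D a then
        K * (ph 1 (1/4) (D.bd σ.1) + (a:ℝ) ^ (-(1/4):ℝ)) * P D.edges (Wl D a) else 0) =
      4 * ∑ v ∈ Finset.Icc D.l D.r ×ˢ Finset.Icc 0 D.h, (if v ∈ Sp D a then
        K * (ph 1 (1/4) (D.bd v) + (a:ℝ) ^ (-(1/4):ℝ)) * P D.edges (Wl D a) else 0) :=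
    Moments_four D (fun v => if v ∈ Sp D a then
        K * (ph 1 (1/4) (D.bd v) + (a:ℝ) ^ (-(1/4):ℝ)) * P D.edges (Wl D a) else 0)
  rw [e4, ← Finset.sum_filter]
  have e5 : ∑ v ∈ (Finset.Icc D.l D.r ×ˢ Finset.Icc 0 D.h).filter (fun v => v ∈ Sp D a),
      K * (ph 1 (1/4) (D.bd v) + (a:ℝ) ^ (-(1/4):ℝ)) * P D.edges (Wl D a) ≤
      ∑ v ∈ Sp D a, K * (ph 1 (1/4) (D.bd v) + (a:ℝ) ^ (-(1/4):ℝ)) * P D.edges (Wl D a) := by
    apply Finset.sum_le_sum_of_subset_of_nonneg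
    · intro v hv
      exact (Finset.mem_filter.mp hv).2
    · intro v _ _
      have : 0 ≤ ph 1 (1/4) (D.bd v) := ph_nonneg zero_le_one _
      positivity
  have e6 : ∑ v ∈ Sp D a, K * (ph 1 (1/4) (D.bd v) + (a:ℝ) ^ (-(1/4):ℝ)) * P D.edges (Wl D a) =
      K * P D.edges (Wl D a) * ∑ v ∈ Sp D a, (ph 1 (1/4) (D.bd v) + (a:ℝ) ^ (-(1/4):ℝ)) := by
    rw [Finset.mul_sum]
    exact Finset.sum_congr rfl fun v _ => by ring
  rw [e6] at e5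
  have e7 := mul_le_mul_of_nonneg_left (sp_sum ha h3 hw) (mul_nonneg hK.le hW0)
  calc _ ≤ 4 * (K * P D.edges (Wl D a) * (84 * (((D.r - D.l : ℤ) : ℝ) + D.h) *
        (a:ℝ) ^ (3/4:ℝ))) := mul_le_mul_of_nonneg_left (e5.trans e7) (by norm_num)
    _ = _ := by ring

end Pool.Agent.X135.DL
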