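import Pool.Agent.X135.DL.Tail
import Pool.Agent.TH992.T.Final

/-!
The lower tail of the duration of the exploration path in a rectangle, and in the limit.
-/

set_option autoImplicit false

namespace Pool.Agent.X135.DL

open H974 Finset H342P H984P H984N TH992.T MeasureTheory Filter Topology

theorem rect_tail (R : Rect) : ∃ c C δ0 : ℝ, 0 < c ∧ 0 < C ∧ 0 < δ0 ∧
    ∀ δ : ℝ, 0 < δ → δ ≤ δ0 →
      (∀ F : Finset Edg, F ⊆ (R.dm δ).edges → c * δ ^ (3/4:ℝ) ≤ R.time δ F) ∧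
      (∀ x : ℝ, 0 < x → R.prob δ (fun F => R.time δ F ≤ x) ≤
        C * Real.exp (-(c * x ^ (-(4/3):ℝ)))) ∧
      ∀ x : ℝ, C * δ ^ (3/4:ℝ) ≤ x → x ≤ 1 →
        Real.exp (-(C * x ^ (-(4/3):ℝ))) ≤ R.prob δ (fun F => R.time δ F ≤ x) := by
  obtain ⟨κ, S, δ1, hκ, hS, hδ1, -, hsh⟩ := R.shape
  obtain ⟨-, ⟨C0, hC0, hU⟩, -⟩ := Pool.Agent.Y985.ME.inputs
  obtain ⟨c1, C1, hc1, hC1, hlow⟩ := len_low hC0 hU hκ
  obtain ⟨c2, C2, hc2, hC2, hup⟩ := len_up hκ
  obtain ⟨T, hT⟩ : ∃ T : ℝ, T = S ^ (7/4 : ℝ) := ⟨_, rfl⟩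
  have hT0 : 0 < T := by rw [hT]; positivity
  obtain ⟨cc, hcc⟩ : ∃ cc : ℝ, cc = min (κ * S) (c2 * T ^ (4/3:ℝ)) := ⟨_, rfl⟩
  obtain ⟨CC, hCC⟩ : ∃ CC : ℝ,
      CC = C2 + C1 * (1 + T) ^ (4/3:ℝ) + (1 + T) / (c1 * S ^ (3/4:ℝ)) := ⟨_, rfl⟩
  have hcc0 : 0 < cc := by rw [hcc]; exact lt_min (by positivity) (by positivity)
  have hcc1 : cc ≤ κ * S := by rw [hcc]; exact min_le_left _ _
  have hcc2 : cc ≤ c2 * T ^ (4/3:ℝ) := by rw [hcc]; exact min_le_right _ _
  have t1 : 0 < C1 * (1 + T) ^ (4/3:ℝ) := by positivity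
  have t2 : 0 < (1 + T) / (c1 * S ^ (3/4:ℝ)) := by positivity
  have hCC0 : 0 < CC := by rw [hCC]; linarith
  refine ⟨cc, CC, δ1, hcc0, hCC0, hδ1, fun δ hδ hδ' => ?_⟩
  have hsh' := hsh δ hδ hδ'
  obtain ⟨n, hn⟩ : ∃ n : ℝ, n = S / δ := ⟨_, rfl⟩
  rw [← hn] at hsh'
  have hn0 : 0 < n := by rw [hn]; positivity
  have hD := hsh'.ok
  have hd : 0 < δ ^ (7/4 : ℝ) := Real.rpow_pos_of_pos hδ _
  have e1 : n ^ (7/4 : ℝ) = T * δ ^ (-(7/4) : ℝ) := by rw [hn, hT, mesh_pow hS hδ]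
  have e2 : δ ^ (7/4 : ℝ) * δ ^ (-(7/4) : ℝ) = 1 := by
    rw [← Real.rpow_add hδ]; norm_num
  refine ⟨fun F hF => ?_, fun x hx => ?_, fun x hx hx1 => ?_⟩
  · unfold Rect.time
    have h1 : ((R.dm δ).h : ℝ) ≤ (R.dm δ).len F := by exact_mod_cast len_ge hD hF
    have h2 := hsh'.h_ge
    have h3 : δ ^ (7/4:ℝ) = δ ^ (3/4:ℝ) * δ := by
      nth_rewrite 3 [← Real.rpow_one δ]
      rw [← Real.rpow_add hδ]
      norm_num
    have h4 : δ * (κ * n) = κ * S := by rw [hn]; field_simp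
    have h5 : 0 < δ ^ (3/4:ℝ) := by positivity
    calc cc * δ ^ (3/4:ℝ) ≤ (κ * S) * δ ^ (3/4:ℝ) := mul_le_mul_of_nonneg_right hcc1 h5.le
      _ = δ ^ (7/4:ℝ) * (κ * n) := by rw [h3, ← h4]; ring
      _ ≤ δ ^ (7/4:ℝ) * ((R.dm δ).len F : ℝ) := mul_le_mul_of_nonneg_left (h2.trans h1) hd.le
  · have h1 := hup (R.dm δ) n (T / x) hsh' hn0 (by positivity)
    have h2 : R.prob δ (fun F => R.time δ F ≤ x) ≤
        P (R.dm δ).edges (fun F => ((R.dm δ).len F : ℝ) ≤ n ^ (7/4:ℝ) / (T / x)) := by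
      refine Pr_mono two_ok fun F _ hF => ?_
      unfold Rect.time at hF
      have e3 : n ^ (7/4 : ℝ) / (T / x) = x * δ ^ (-(7/4) : ℝ) := by rw [e1]; field_simp
      rw [e3]
      have h3 := mul_le_mul_of_nonneg_right hF (Real.rpow_nonneg hδ.le (-(7/4) : ℝ))
      have e4 : δ ^ (7/4 : ℝ) * ((R.dm δ).len F : ℝ) * δ ^ (-(7/4) : ℝ) =
          (δ ^ (7/4 : ℝ) * δ ^ (-(7/4) : ℝ)) * ((R.dm δ).len F : ℝ) := by ring
      rw [e4, e2, one_mul] at h3
      exact h3
    refine h2.trans (h1.trans ?_)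
    have h3 : (T / x) ^ (4/3:ℝ) = T ^ (4/3:ℝ) * x ^ (-(4/3):ℝ) := mesh_pow hT0 hx _
    rw [h3]
    apply mul_le_mul (by rw [hCC]; linarith) _ (Real.exp_nonneg _) hCC0.le
    apply Real.exp_le_exp.mpr
    have h4 : 0 < x ^ (-(4/3):ℝ) := by positivity
    have h5 := mul_le_mul_of_nonneg_right hcc2 h4.le
    linarith
  · have hx0 : 0 < x := lt_of_lt_of_le (by positivity) hx
    have hX1 : 1 ≤ (1 + T) / x := by
      rw [le_div_iff₀ hx0]
      linarith
    have hXn : (1 + T) / x ≤ c1 * n ^ (3/4:ℝ) := by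
      rw [hn, mesh_pow hS hδ, div_le_iff₀ hx0]
      have h1 : (1 + T) / (c1 * S ^ (3/4:ℝ)) * δ ^ (3/4:ℝ) ≤ x := by
        refine le_trans ?_ hx
        exact mul_le_mul_of_nonneg_right (by rw [hCC]; linarith) (by positivity)
      have h2 : δ ^ (-(3/4):ℝ) * δ ^ (3/4:ℝ) = 1 := by rw [← Real.rpow_add hδ]; norm_num
      calc 1 + T = c1 * (S ^ (3/4:ℝ) * δ ^ (-(3/4):ℝ)) *
            ((1 + T) / (c1 * S ^ (3/4:ℝ)) * δ ^ (3/4:ℝ)) := by
              have h3 : c1 * (S ^ (3/4:ℝ) * δ ^ (-(3/4):ℝ)) *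
                ((1 + T) / (c1 * S ^ (3/4:ℝ)) * δ ^ (3/4:ℝ)) =
                (c1 * S ^ (3/4:ℝ)) / (c1 * S ^ (3/4:ℝ)) * (1 + T) *
                  (δ ^ (-(3/4):ℝ) * δ ^ (3/4:ℝ)) := by ring
              rw [h3, h2, div_self (by positivity)]
              ring
        _ ≤ c1 * (S ^ (3/4:ℝ) * δ ^ (-(3/4):ℝ)) * x :=
            mul_le_mul_of_nonneg_left h1 (by positivity)
    have h1 := hlow (R.dm δ) n ((1 + T) / x) hsh' hn0 hX1 hXn
    refine le_trans ?_ (h1.trans (Pr_mono two_ok fun F _ hF => ?_))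
    · apply Real.exp_le_exp.mpr
      have h3 : ((1 + T) / x) ^ (4/3:ℝ) = (1 + T) ^ (4/3:ℝ) * x ^ (-(4/3):ℝ) :=
        mesh_pow (by positivity) hx0 _
      rw [h3]
      have h4 : 0 < x ^ (-(4/3):ℝ) := by positivity
      have h5 : C1 * (1 + T) ^ (4/3:ℝ) ≤ CC := by rw [hCC]; linarith
      have h6 := mul_le_mul_of_nonneg_right h5 h4.le
      linarith
    · unfold Rect.time
      have h2 : ((R.dm δ).len F : ℝ) ≤ x * δ ^ (-(7/4) : ℝ) := by
        refine hF.trans ?_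
        rw [e1, div_div_eq_mul_div, div_le_iff₀ (by positivity)]
        have h3 : 0 < x * δ ^ (-(7/4) : ℝ) := by positivity
        nlinarith
      have h3 := mul_le_mul_of_nonneg_left h2 hd.le
      have e3 : δ ^ (7/4 : ℝ) * (x * δ ^ (-(7/4) : ℝ)) =
          (δ ^ (7/4 : ℝ) * δ ^ (-(7/4) : ℝ)) * x := by ring
      rw [e3, e2, one_mul] at h3
      exact h3

/-- Laplace transform -/
theorem lap_of {ν : Measure X} [IsProbabilityMeasure ν] (h0 : ∀ᵐ p ∂ν, 0 ≤ p.2) {s x : ℝ}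
    (hs : 0 ≤ s) :
    Real.exp (-(s * x)) * ν.real {p | p.2 ≤ x} ≤ ∫ p, Real.exp (-(s * p.2)) ∂ν ∧
    ∫ p, Real.exp (-(s * p.2)) ∂ν ≤ ν.real {p | p.2 ≤ x} + Real.exp (-(s * x)) := by
  have hm : MeasurableSet {p : X | p.2 ≤ x} := measurableSet_le measurable_snd measurable_const
  have hmf : Measurable (fun p : X => Real.exp (-(s * p.2))) := by
    exact Real.measurable_exp.comp ((measurable_snd.const_mul s).neg)
  have hint : Integrable (fun p : X => Real.exp (-(s * p.2))) ν := by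
    refine Integrable.of_bound hmf.aestronglyMeasurable 1 ?_
    filter_upwards [h0] with p hp
    rw [Real.norm_eq_abs, abs_of_pos (Real.exp_pos _)]
    apply Real.exp_le_one_iff.mpr
    have := mul_nonneg hs hp
    linarith
  have hi1 : Integrable ({p : X | p.2 ≤ x}.indicator (fun _ => (1:ℝ))) ν :=
    (integrable_const (1:ℝ)).indicator hm
  have hi2 : Integrable ({p : X | p.2 ≤ x}.indicator (fun _ => Real.exp (-(s * x)))) ν :=
    (integrable_const _).indicator hm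
  constructor
  · have h1 : ∫ p, {p : X | p.2 ≤ x}.indicator (fun _ => Real.exp (-(s * x))) p ∂ν =
        Real.exp (-(s * x)) * ν.real {p | p.2 ≤ x} := by
      rw [integral_indicator_const _ hm, smul_eq_mul, mul_comm]
    rw [← h1]
    refine integral_mono hi2 hint fun p => ?_
    by_cases hp : p.2 ≤ x
    · rw [Set.indicator_of_mem (show p ∈ {p : X | p.2 ≤ x} from hp)]
      apply Real.exp_le_exp.mpr
      have := mul_le_mul_of_nonneg_left hp hs
      linarith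
    · rw [Set.indicator_of_notMem (show p ∉ {p : X | p.2 ≤ x} from hp)]
      exact (Real.exp_pos _).le
  · have h1 : ∫ p, ({p : X | p.2 ≤ x}.indicator (fun _ => (1:ℝ)) p + Real.exp (-(s * x))) ∂ν =
        ν.real {p | p.2 ≤ x} + Real.exp (-(s * x)) := by
      rw [integral_add hi1 (integrable_const _), integral_indicator_const _ hm, smul_eq_mul,
        mul_one, integral_const, smul_eq_mul, probReal_univ, one_mul]
    rw [← h1]
    refine integral_mono_ae hint (hi1.add (integrable_const _)) ?_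
    filter_upwards [h0] with p hp0
    by_cases hp : p.2 ≤ x
    · show Real.exp (-(s * p.2)) ≤ {p : X | p.2 ≤ x}.indicator (fun _ => (1:ℝ)) p + _
      rw [Set.indicator_of_mem (show p ∈ {p : X | p.2 ≤ x} from hp)]
      have h2 : Real.exp (-(s * p.2)) ≤ 1 := by
        apply Real.exp_le_one_iff.mpr
        have := mul_nonneg hs hp0
        linarith
      have := Real.exp_pos (-(s * x))
      linarith
    · show Real.exp (-(s * p.2)) ≤ {p : X | p.2 ≤ x}.indicator (fun _ => (1:ℝ)) p + _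
      rw [Set.indicator_of_notMem (show p ∉ {p : X | p.2 ≤ x} from hp), zero_add]
      apply Real.exp_le_exp.mpr
      push Not at hp
      have := mul_le_mul_of_nonneg_left hp.le hs
      linarith

theorem lap_two {ν : Measure X} [IsProbabilityMeasure ν] (h0 : ∀ᵐ p ∂ν, 0 ≤ p.2)
    {c C s : ℝ} (hC : 0 < C) (hs : 1 ≤ s)
    (hlow : Real.exp (-(C * (s ^ (-(3/7):ℝ)) ^ (-(4/3):ℝ))) ≤
      ν.real {p | p.2 ≤ s ^ (-(3/7):ℝ)})
    (hup : ν.real {p | p.2 ≤ s ^ (-(3/7):ℝ)} ≤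
      C * Real.exp (-(c * (s ^ (-(3/7):ℝ)) ^ (-(4/3):ℝ)))) :
    Real.exp (-((C + 1) * s ^ (4/7:ℝ))) ≤ ∫ p, Real.exp (-(s * p.2)) ∂ν ∧
    ∫ p, Real.exp (-(s * p.2)) ∂ν ≤ (C + 1) * Real.exp (-(min c 1 * s ^ (4/7:ℝ))) := by
  have hs0 : 0 < s := by linarith
  have e1 : (s ^ (-(3/7):ℝ)) ^ (-(4/3):ℝ) = s ^ (4/7:ℝ) := by
    rw [← Real.rpow_mul hs0.le]; norm_num
  have e2 : s * s ^ (-(3/7):ℝ) = s ^ (4/7:ℝ) := by
    nth_rewrite 1 [← Real.rpow_one s]
    rw [← Real.rpow_add hs0]; norm_num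
  obtain ⟨g1, g2⟩ := lap_of (x := s ^ (-(3/7):ℝ)) h0 hs0.le
  rw [e1] at hlow hup
  rw [e2] at g1 g2
  obtain ⟨y, hy⟩ : ∃ y : ℝ, y = s ^ (4/7:ℝ) := ⟨_, rfl⟩
  have hy0 : 0 < y := by rw [hy]; positivity
  rw [← hy] at hlow hup g1 g2 ⊢
  constructor
  · refine le_trans ?_ g1
    refine le_trans ?_ (mul_le_mul_of_nonneg_left hlow (Real.exp_nonneg _))
    rw [← Real.exp_add]
    apply Real.exp_le_exp.mpr
    linarith
  · refine g2.trans ?_
    have m1 : min c 1 ≤ c := min_le_left _ _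
    have m2 : min c 1 ≤ 1 := min_le_right _ _
    have k1 : Real.exp (-(c * y)) ≤ Real.exp (-(min c 1 * y)) := by
      apply Real.exp_le_exp.mpr
      have := mul_le_mul_of_nonneg_right m1 hy0.le
      linarith
    have k2 : Real.exp (-y) ≤ Real.exp (-(min c 1 * y)) := by
      apply Real.exp_le_exp.mpr
      have := mul_le_mul_of_nonneg_right m2 hy0.le
      linarith
    have k3 := mul_le_mul_of_nonneg_left k1 hC.le
    linarith

/-- the limits -/
theorem lim_tail {R : Rect} {c C δ0 : ℝ} (hc : 0 < c) (hC : 0 < C) (hδ0 : 0 < δ0)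
    (h : ∀ δ : ℝ, 0 < δ → δ ≤ δ0 →
      (∀ F : Finset Edg, F ⊆ (R.dm δ).edges → c * δ ^ (3/4:ℝ) ≤ R.time δ F) ∧
      (∀ x : ℝ, 0 < x → R.prob δ (fun F => R.time δ F ≤ x) ≤
        C * Real.exp (-(c * x ^ (-(4/3):ℝ)))) ∧
      ∀ x : ℝ, C * δ ^ (3/4:ℝ) ≤ x → x ≤ 1 →
        Real.exp (-(C * x ^ (-(4/3):ℝ))) ≤ R.prob δ (fun F => R.time δ F ≤ x))
    {δ : ℕ → ℝ} (hδ : ∀ i, 0 < δ i) (hlim : Tendsto δ atTop (𝓝 0))
    {μ : ProbabilityMeasure X} (hμ : Tendsto (fun i => R.law (δ i)) atTop (𝓝 μ)) :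
    (∀ᵐ p ∂(μ : Measure X), 0 ≤ p.2) ∧
    ∀ x : ℝ, 0 < x →
      (x ≤ 1 → Real.exp (-(C * x ^ (-(4/3):ℝ))) ≤ (μ : Measure X).real {p | p.2 ≤ x}) ∧
      (μ : Measure X).real {p | p.2 ≤ x} ≤ C * Real.exp (-(c / 4 * x ^ (-(4/3):ℝ))) := by
  constructor
  · have hG : IsOpen {p : X | p.2 < 0} := isOpen_lt continuous_snd continuous_const
    have h1 := ProbabilityMeasure.le_liminf_measure_open_of_tendsto hμ hG
    have h2 : ∀ᶠ i in atTop, (R.law (δ i) : Measure X) {p : X | p.2 < 0} ≤ 0 := by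
      filter_upwards with i
      rw [R.law_apply (δ i) hG.measurableSet]
      have h3 : R.prob (δ i) (fun F => (R.curve (δ i) F, R.time (δ i) F) ∈ {p : X | p.2 < 0}) ≤
          P (R.dm (δ i)).edges (fun _ => False) := by
        refine Pr_mono two_ok fun F _ hF => ?_
        have h4 : R.time (δ i) F < 0 := hF
        have h5 : 0 ≤ R.time (δ i) F := by
          unfold Rect.time
          have := hδ i
          positivity
        linarith
      have h4 : P (R.dm (δ i)).edges (fun _ => False) = 0 := by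
        have h5 := Pr_not (p := fun _ : Edg => (1/2:ℝ)) (R.dm (δ i)).edges (fun _ => True)
        rw [Pr_true _ (fun _ _ => trivial), sub_self] at h5
        rw [← h5]
        exact Pr_congr fun F _ => ⟨fun h => h.elim, fun h => (h trivial).elim⟩
      rw [h4] at h3
      rw [ENNReal.ofReal_of_nonpos h3]
    have h3 : (μ : Measure X) {p : X | p.2 < 0} ≤ 0 := by
      refine h1.trans ?_
      calc liminf (fun i => (R.law (δ i) : Measure X) {p : X | p.2 < 0}) atTop ≤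
            liminf (fun _ : ℕ => (0 : ENNReal)) atTop := liminf_le_liminf h2
        _ = 0 := liminf_const _
    have h4 : (μ : Measure X) {p : X | p.2 < 0} = 0 := nonpos_iff_eq_zero.mp h3
    rw [ae_iff]
    convert h4 using 2
    ext p
    simp
  intro x hx
  constructor
  · intro hx1
    have hG : IsClosed {p : X | p.2 ≤ x} := isClosed_le continuous_snd continuous_const
    have h1 := ProbabilityMeasure.limsup_measure_closed_le_of_tendsto hμ hG
    have hev : ∀ᶠ i in atTop, C * δ i ^ (3/4 : ℝ) ≤ x := by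
      have ht : Tendsto (fun i => C * δ i ^ (3/4 : ℝ)) atTop (𝓝 (C * 0 ^ (3/4:ℝ))) := by
        refine Tendsto.const_mul C ?_
        exact hlim.rpow_const (Or.inr (by norm_num))
      rw [Real.zero_rpow (by norm_num), mul_zero] at ht
      exact ht.eventually (ge_mem_nhds hx)
    have h2 : ∀ᶠ i in atTop, ENNReal.ofReal (Real.exp (-(C * x ^ (-(4/3):ℝ)))) ≤
        (R.law (δ i) : Measure X) {p : X | p.2 ≤ x} := by
      filter_upwards [hlim.eventually (ge_mem_nhds hδ0), hev] with i hi hi2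
      rw [R.law_apply (δ i) hG.measurableSet]
      exact ENNReal.ofReal_le_ofReal ((h (δ i) (hδ i) hi).2.2 x hi2 hx1)
    have h3 : ENNReal.ofReal (Real.exp (-(C * x ^ (-(4/3):ℝ)))) ≤
        (μ : Measure X) {p : X | p.2 ≤ x} := by
      refine le_trans ?_ h1
      calc ENNReal.ofReal (Real.exp (-(C * x ^ (-(4/3):ℝ)))) =
            limsup (fun _ : ℕ => ENNReal.ofReal (Real.exp (-(C * x ^ (-(4/3):ℝ))))) atTop :=
              (limsup_const _).symm
        _ ≤ _ := limsup_le_limsup h2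
    rw [Measure.real]
    exact (ENNReal.ofReal_le_iff_le_toReal (measure_ne_top _ _)).mp h3
  · have hG : IsOpen {p : X | p.2 < 2 * x} := isOpen_lt continuous_snd continuous_const
    have h1 := ProbabilityMeasure.le_liminf_measure_open_of_tendsto hμ hG
    have h3 : (μ : Measure X) {p | p.2 ≤ x} ≤ (μ : Measure X) {p | p.2 < 2 * x} :=
      measure_mono fun p hp => by
        simp only [Set.mem_ofPred_eq] at hp ⊢
        linarith
    have h2 : ∀ᶠ i in atTop, (R.law (δ i) : Measure X) {p : X | p.2 < 2 * x} ≤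
        ENNReal.ofReal (C * Real.exp (-(c / 4 * x ^ (-(4/3):ℝ)))) := by
      filter_upwards [hlim.eventually (ge_mem_nhds hδ0)] with i hi
      rw [R.law_apply (δ i) hG.measurableSet]
      refine ENNReal.ofReal_le_ofReal ?_
      have h4 := (h (δ i) (hδ i) hi).2.1 (2 * x) (by positivity)
      refine le_trans (le_trans ?_ h4) ?_
      · refine Pr_mono two_ok fun F _ hF => ?_
        exact le_of_lt hF
      · apply mul_le_mul_of_nonneg_left _ hC.le
        apply Real.exp_le_exp.mpr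
        have h5 : (1:ℝ) / 4 ≤ 2 ^ (-(4/3):ℝ) := by
          have h6 := Real.rpow_le_rpow_of_exponent_le (by norm_num : (1:ℝ) ≤ 2)
            (show (-2:ℝ) ≤ -(4/3) by norm_num)
          have h7 : (2:ℝ) ^ (-2:ℝ) = 1/4 := by
            rw [Real.rpow_neg (by norm_num)]; norm_num
          linarith
        rw [Real.mul_rpow (by norm_num) hx.le]
        have h8 : 0 < x ^ (-(4/3):ℝ) := by positivity
        have h9 := mul_le_mul_of_nonneg_right h5 (mul_nonneg hc.le h8.le)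
        linarith
    have h5 : (μ : Measure X) {p | p.2 ≤ x} ≤
        ENNReal.ofReal (C * Real.exp (-(c / 4 * x ^ (-(4/3):ℝ)))) := by
      refine h3.trans (h1.trans ?_)
      calc liminf (fun i => (R.law (δ i) : Measure X) {p : X | p.2 < 2 * x}) atTop ≤
            liminf (fun _ : ℕ => ENNReal.ofReal (C * Real.exp (-(c / 4 * x ^ (-(4/3):ℝ)))))
              atTop := liminf_le_liminf h2
        _ = _ := liminf_const _
    rw [Measure.real]
    exact ENNReal.toReal_le_of_le_ofReal (by positivity) h5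

end Pool.Agent.X135.DL
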