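import Pool.Agent.X135.DL.Mean
import Pool.Agent.X135.PL.Det
import Pool.Agent.Y985.ME.Top

/-!
The lower tail of the number of steps of the exploration path in a lattice rectangle.
-/

set_option autoImplicit false

namespace Pool.Agent.X135.DL

open H974 Finset H342P H984P H984N Pool.Agent.Y244.PC Pool.Agent.X135.PL

/-- Markov's inequality -/
theorem markov_wall {D : Dm} {a : ℤ} {M : ℝ} (hM : 0 < M)
    (h : E D.edges (fun F => ind (Wl D a F) * ((D.len F : ℝ) + 1)) ≤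
      M / 2 * P D.edges (Wl D a)) :
    P D.edges (Wl D a) / 2 ≤ P D.edges (fun F => (D.len F : ℝ) ≤ M) := by
  have h1 : P D.edges (Wl D a) ≤ E D.edges (fun F => ind ((D.len F : ℝ) ≤ M) +
      1 / M * (ind (Wl D a F) * ((D.len F : ℝ) + 1))) := by
    refine Ex_mono hok fun F _ => ?_
    have h0 : (0:ℝ) ≤ D.len F := Nat.cast_nonneg _
    by_cases hw : Wl D a F
    · rw [ind_of hw, one_mul]
      by_cases hm : (D.len F : ℝ) ≤ M
      · rw [ind_of hm]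
        have : 0 ≤ 1 / M * ((D.len F : ℝ) + 1) := by positivity
        linarith
      · push Not at hm
        have h2 : 1 ≤ 1 / M * ((D.len F : ℝ) + 1) := by
          rw [one_div_mul_eq_div, le_div_iff₀ hM]
          linarith
        have := ind_nonneg ((D.len F : ℝ) ≤ M)
        linarith
    · rw [ind_not_of hw, zero_mul, mul_zero, add_zero]
      exact ind_nonneg _
  have h2 : E D.edges (fun F => ind ((D.len F : ℝ) ≤ M) +
      1 / M * (ind (Wl D a F) * ((D.len F : ℝ) + 1))) =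
      P D.edges (fun F => (D.len F : ℝ) ≤ M) +
      1 / M * E D.edges (fun F => ind (Wl D a F) * ((D.len F : ℝ) + 1)) := by
    unfold E
    rw [Ex_add, Ex_mul_left]
    rfl
  rw [h2] at h1
  have h3 : 1 / M * E D.edges (fun F => ind (Wl D a F) * ((D.len F : ℝ) + 1)) ≤
      1 / M * (M / 2 * P D.edges (Wl D a)) := mul_le_mul_of_nonneg_left h (by positivity)
  have h4 : 1 / M * (M / 2 * P D.edges (Wl D a)) = P D.edges (Wl D a) / 2 := by field_simp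
  linarith

/-- lower bound -/
theorem len_low {C : ℝ} (hC : 0 < C) (hU : TwoUp C (1/4)) {κ : ℝ} (hκ : 0 < κ) :
    ∃ c C' : ℝ, 0 < c ∧ 0 < C' ∧ ∀ (D : Dm) (n x : ℝ), D.Shape κ n → 0 < n → 1 ≤ x →
      x ≤ c * n ^ (3/4:ℝ) → Real.exp (-(C' * x ^ (4/3:ℝ))) ≤
        P D.edges (fun F => (D.len F : ℝ) ≤ n ^ (7/4:ℝ) / x) := by
  obtain ⟨K, hK, hmean⟩ := mean_wall hC hU
  obtain ⟨η, hη⟩ : ∃ η : ℝ, η = min (κ / 3) ((1 / (4 * K)) ^ (4/3:ℝ)) := ⟨_, rfl⟩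
  have hη0 : 0 < η := by rw [hη]; exact lt_min (by positivity) (by positivity)
  have hη1 : 3 * η ≤ κ := by
    have : η ≤ κ / 3 := by rw [hη]; exact min_le_left _ _
    linarith
  have hηK : 4 * K * η ^ (3/4:ℝ) ≤ 1 := by
    have h1 : η ^ (3/4:ℝ) ≤ ((1 / (4 * K)) ^ (4/3:ℝ)) ^ (3/4:ℝ) :=
      Real.rpow_le_rpow hη0.le (by rw [hη]; exact min_le_right _ _) (by norm_num)
    rw [← Real.rpow_mul (by positivity), show (4/3:ℝ) * (3/4) = 1 by norm_num,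
      Real.rpow_one] at h1
    calc 4 * K * η ^ (3/4:ℝ) ≤ 4 * K * (1 / (4 * K)) :=
          mul_le_mul_of_nonneg_left h1 (by positivity)
      _ = 1 := by field_simp
  have hl2 : 0 < Real.log 2 := Real.log_pos (by norm_num)
  refine ⟨(η / 3) ^ (3/4:ℝ), Real.log 2 * (846 / η + 565), by positivity, by positivity, ?_⟩
  intro D n x hsh hn hx hxn
  have hD := hsh.ok
  have hx0 : 0 < x := by linarith
  obtain ⟨y, hy⟩ : ∃ y : ℝ, y = η * n / x ^ (4/3:ℝ) := ⟨_, rfl⟩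
  have hX : 0 < x ^ (4/3:ℝ) := by positivity
  have hX1 : 1 ≤ x ^ (4/3:ℝ) := Real.one_le_rpow hx (by norm_num)
  have hy3 : 3 ≤ y := by
    have h1 : x ^ (4/3:ℝ) ≤ ((η / 3) ^ (3/4:ℝ) * n ^ (3/4:ℝ)) ^ (4/3:ℝ) :=
      Real.rpow_le_rpow hx0.le hxn (by norm_num)
    rw [← Real.mul_rpow (by positivity) hn.le, ← Real.rpow_mul (by positivity),
      show (3/4:ℝ) * (4/3) = 1 by norm_num, Real.rpow_one] at h1
    rw [hy, le_div_iff₀ hX]
    linarith
  obtain ⟨a, ha⟩ : ∃ a : ℕ, a = ⌊y⌋₊ := ⟨_, rfl⟩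
  have ha1 : (a:ℝ) ≤ y := by rw [ha]; exact Nat.floor_le (by linarith)
  have ha2 : y < a + 1 := by rw [ha]; exact Nat.lt_floor_add_one _
  have ha3 : 3 ≤ a := by rw [ha]; exact Nat.le_floor (by exact_mod_cast hy3)
  have ha3r : (3:ℝ) ≤ a := by exact_mod_cast ha3
  have ha0 : (0:ℝ) < a := by linarith
  have hyn : y ≤ η * n := by
    rw [hy]; exact div_le_self (by positivity) hX1
  have hh3 : 3 * (a:ℤ) ≤ D.h := by
    have : (3 * (a:ℝ)) ≤ D.h := by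
      have h1 := hsh.h_ge
      have h2 : 3 * η * n ≤ κ * n := mul_le_mul_of_nonneg_right hη1 hn.le
      linarith
    exact_mod_cast this
  have hw3 : 3 * (a:ℤ) ≤ D.r - D.l := by
    have h1 := hsh.r_ge
    have h3 := hsh.l_ge
    have : (3 * (a:ℝ)) ≤ D.r - D.l := by
      have h2 : 3 * η * n ≤ κ * n := mul_le_mul_of_nonneg_right hη1 hn.le
      have h4 : 0 < κ * n := by positivity
      linarith
    exact_mod_cast this
  have hw := hsh.w_le
  have hh := hsh.h_le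
  -- the wall
  obtain ⟨k, hk⟩ : ∃ k : ℕ, k = ⌈n / a⌉₊ := ⟨_, rfl⟩
  have hk1 : n / a ≤ k := by rw [hk]; exact Nat.le_ceil _
  have hk2 : (k:ℝ) < n / a + 1 := by rw [hk]; exact Nat.ceil_lt_add_one (by positivity)
  have hnk : n ≤ a * k := by
    rw [div_le_iff₀ ha0] at hk1
    linarith
  have hwk : D.r - D.l ≤ (a:ℤ) * k := by
    have : ((D.r - D.l : ℤ) : ℝ) ≤ (a:ℝ) * k := hw.trans hnk
    exact_mod_cast this
  have hhk : D.h ≤ (a:ℤ) * k := by
    have : (D.h : ℝ) ≤ (a:ℝ) * k := hh.trans hnk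
    exact_mod_cast this
  have hpr := wl_pr hD (a := (a:ℤ)) (by exact_mod_cast ha3) (by omega) (by omega) hhk hwk
  have hm := hmean D a hD (by omega) hh3 hw3
  -- Markov
  obtain ⟨M, hM⟩ : ∃ M : ℝ, M = n ^ (7/4:ℝ) / x := ⟨_, rfl⟩
  have hM0 : 0 < M := by rw [hM]; positivity
  have hWn : 0 ≤ P D.edges (Wl D a) := Pr_nonneg hok _ _
  have hKM : K * (((D.r - D.l : ℤ) : ℝ) + D.h) * (a:ℝ) ^ (3/4:ℝ) ≤ M / 2 := by
    have h1 : (a:ℝ) ^ (3/4:ℝ) ≤ y ^ (3/4:ℝ) := Real.rpow_le_rpow ha0.le ha1 (by norm_num)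
    have h2 : y ^ (3/4:ℝ) = η ^ (3/4:ℝ) * n ^ (3/4:ℝ) / x := by
      rw [hy, Real.div_rpow (by positivity) hX.le, Real.mul_rpow hη0.le hn.le,
        ← Real.rpow_mul hx0.le, show (4/3:ℝ) * (3/4) = 1 by norm_num, Real.rpow_one]
    have h3 : n * n ^ (3/4:ℝ) = n ^ (7/4:ℝ) := by
      nth_rewrite 1 [← Real.rpow_one n]
      rw [← Real.rpow_add hn]
      norm_num
    calc K * (((D.r - D.l : ℤ) : ℝ) + D.h) * (a:ℝ) ^ (3/4:ℝ) ≤
          K * (n + n) * y ^ (3/4:ℝ) := by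
            apply mul_le_mul _ h1 (by positivity) (by positivity)
            exact mul_le_mul_of_nonneg_left (add_le_add hw hh) hK.le
      _ = (4 * K * η ^ (3/4:ℝ)) * (n * n ^ (3/4:ℝ) / x) / 2 := by rw [h2]; ring
      _ ≤ 1 * (n * n ^ (3/4:ℝ) / x) / 2 := by
            apply div_le_div_of_nonneg_right _ (by norm_num)
            exact mul_le_mul_of_nonneg_right hηK (by positivity)
      _ = M / 2 := by rw [h3, hM]; ring
  have hmk := markov_wall hM0 (hm.trans (mul_le_mul_of_nonneg_right hKM hWn))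
  rw [← hM]
  refine le_trans ?_ hmk
  -- the exponent
  have hp2 : (1 / 2 : ℝ) ^ (423 * k + 141) / 2 = (1 / 2 : ℝ) ^ (423 * k + 142) := by
    rw [show 423 * k + 142 = (423 * k + 141) + 1 by ring, pow_succ _ (423 * k + 141)]
    ring
  have hp3 : (1 / 2 : ℝ) ^ (423 * k + 142) =
      Real.exp (-(Real.log 2 * ((423 * k + 142 : ℕ) : ℝ))) := by
    rw [show -(Real.log 2 * ((423 * k + 142 : ℕ) : ℝ)) =
      ((423 * k + 142 : ℕ) : ℝ) * (-Real.log 2) by ring, Real.exp_nat_mul, Real.exp_neg,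
      Real.exp_log (by norm_num)]
    congr 1
    norm_num
  have hfin : Real.exp (-(Real.log 2 * (846 / η + 565) * x ^ (4/3:ℝ))) ≤
      (1 / 2 : ℝ) ^ (423 * k + 141) / 2 := by
    rw [hp2, hp3]
    apply Real.exp_le_exp.mpr
    have h1 : n / a ≤ 2 / η * x ^ (4/3:ℝ) := by
      have h2 : y ≤ 2 * a := by linarith
      have h3 : y * x ^ (4/3:ℝ) = η * n := by rw [hy]; field_simp
      rw [div_le_iff₀ ha0]
      have h4 : 2 / η * x ^ (4/3:ℝ) * a = (2 * a * x ^ (4/3:ℝ)) / η := by ring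
      rw [h4, le_div_iff₀ hη0]
      have h5 := mul_le_mul_of_nonneg_right h2 hX.le
      linarith
    have h2 : ((423 * k + 142 : ℕ) : ℝ) ≤ (846 / η + 565) * x ^ (4/3:ℝ) := by
      push_cast
      have h3 : (846 / η + 565) * x ^ (4/3:ℝ) =
          423 * (2 / η * x ^ (4/3:ℝ)) + 565 * x ^ (4/3:ℝ) := by ring
      rw [h3]
      linarith
    have h3 := mul_le_mul_of_nonneg_left h2 hl2.le
    linarith
  refine hfin.trans ?_
  linarith

/-- the path has at least `h` steps -/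
theorem len_ge {D : Dm} (hD : D.Ok) {F : Finset Edg} (hF : F ⊆ D.edges) : D.h ≤ D.len F := by
  have h1 := orb_le (D.cfg F) D.start (D.len F)
  have h2 : orb (D.cfg F) D.start (D.len F) = Dm.stop := walk_len hD hF
  rw [h2] at h1
  have h3 : |D.h - 0| ≤ sd (Dm.start D).1 Dm.stop.1 := le_max_right _ _
  have h4 := le_abs_self (D.h - 0)
  omega

/-- upper bound -/
theorem len_up {κ : ℝ} (hκ : 0 < κ) : ∃ c C : ℝ, 0 < c ∧ 0 < C ∧
    ∀ (D : Dm) (n x : ℝ), D.Shape κ n → 0 < n → 0 < x →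
      P D.edges (fun F => (D.len F : ℝ) ≤ n ^ (7/4:ℝ) / x) ≤
        C * Real.exp (-(c * x ^ (4/3:ℝ))) := by
  obtain ⟨c0, C0, hc0, hC0, hf⟩ := Pool.Agent.Y985.ME.s_fast κ hκ
  obtain ⟨b, hb⟩ : ∃ b : ℝ, b = (1 / (κ ^ (4/3:ℝ) * C0)) ^ (3/4:ℝ) := ⟨_, rfl⟩
  have hb0 : 0 < b := by rw [hb]; positivity
  obtain ⟨m, hm⟩ : ∃ m : ℝ, m = min 1 (b * κ) := ⟨_, rfl⟩
  have hm0 : 0 < m := by rw [hm]; exact lt_min one_pos (by positivity)
  obtain ⟨X0, hX0⟩ : ∃ X0 : ℝ, X0 = max (1 / κ ^ (7/4:ℝ)) (1 / (κ * (b * κ ^ (7/4:ℝ)))) :=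
    ⟨_, rfl⟩
  have hX01 : 1 / κ ^ (7/4:ℝ) ≤ X0 := by rw [hX0]; exact le_max_left _ _
  have hX02 : 1 / (κ * (b * κ ^ (7/4:ℝ))) ≤ X0 := by rw [hX0]; exact le_max_right _ _
  have hX0p : 0 < X0 := lt_of_lt_of_le (by positivity) hX01
  obtain ⟨c, hc⟩ : ∃ c : ℝ, c = c0 * κ ^ (7/3:ℝ) * m ^ (4/3:ℝ) := ⟨_, rfl⟩
  have hcp : 0 < c := by rw [hc]; positivity
  refine ⟨c, max (Real.exp (c * X0 ^ (4/3:ℝ))) (C0 * (1 / κ) ^ 2), hcp,
    lt_max_of_lt_left (Real.exp_pos _), ?_⟩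
  intro D n x hsh hn hx
  have hD := hsh.ok
  have he := Real.exp_pos (-(c * x ^ (4/3:ℝ)))
  rcases le_or_gt x X0 with h | h
  · refine (Pr_le_one hok _ _).trans ?_
    have h1 : x ^ (4/3:ℝ) ≤ X0 ^ (4/3:ℝ) := Real.rpow_le_rpow hx.le h (by norm_num)
    have h2 : (1:ℝ) ≤ Real.exp (c * X0 ^ (4/3:ℝ)) * Real.exp (-(c * x ^ (4/3:ℝ))) := by
      rw [← Real.exp_add]
      apply Real.one_le_exp
      have := mul_le_mul_of_nonneg_left h1 hcp.le
      linarith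
    exact h2.trans (mul_le_mul_of_nonneg_right (le_max_left _ _) he.le)
  rcases lt_or_ge (n ^ (3/4:ℝ)) (κ * x) with h2 | h2
  · -- the event is empty
    have h3 : P D.edges (fun F => (D.len F : ℝ) ≤ n ^ (7/4:ℝ) / x) ≤
        P D.edges (fun _ => False) := by
      refine Pr_mono hok fun F hF hle => ?_
      have h4 : (D.h : ℝ) ≤ D.len F := by exact_mod_cast len_ge hD hF
      have h5 := hsh.h_ge
      have h6 : n ^ (7/4:ℝ) = n * n ^ (3/4:ℝ) := by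
        nth_rewrite 2 [← Real.rpow_one n]
        rw [← Real.rpow_add hn]
        norm_num
      rw [le_div_iff₀ hx, h6] at hle
      have h7 : κ * n * x ≤ (D.len F : ℝ) * x :=
        mul_le_mul_of_nonneg_right (h5.trans h4) hx.le
      have h8 : n * n ^ (3/4:ℝ) < n * (κ * x) := mul_lt_mul_of_pos_left h2 hn
      nlinarith
    have h4 : P D.edges (fun _ => False) = 0 := by
      have h5 := Pr_not (p := fun _ : Edg => (1/2:ℝ)) D.edges (fun _ => True)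
      rw [Pr_true _ (fun _ _ => trivial), sub_self] at h5
      rw [← h5]
      exact Pr_congr fun F _ => ⟨fun h => h.elim, fun h => (h trivial).elim⟩
    rw [h4] at h3
    refine h3.trans ?_
    have : 0 < max (Real.exp (c * X0 ^ (4/3:ℝ))) (C0 * (1 / κ) ^ 2) :=
      lt_max_of_lt_left (Real.exp_pos _)
    positivity
  -- the main case
  have hbn : 1 / κ ^ (7/4:ℝ) ≤ b * n ^ (3/4:ℝ) := by
    have h3 : 1 / (κ * (b * κ ^ (7/4:ℝ))) < x := lt_of_le_of_lt hX02 h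
    have h4 : b * (κ * (1 / (κ * (b * κ ^ (7/4:ℝ))))) ≤ b * (κ * x) := by gcongr
    have h5 : b * (κ * (1 / (κ * (b * κ ^ (7/4:ℝ))))) = 1 / κ ^ (7/4:ℝ) := by field_simp
    rw [h5] at h4
    exact h4.trans (mul_le_mul_of_nonneg_left h2 hb0.le)
  obtain ⟨x1, hx1⟩ : ∃ x1 : ℝ, x1 = min x (b * n ^ (3/4:ℝ)) := ⟨_, rfl⟩
  have hx1x : x1 ≤ x := by rw [hx1]; exact min_le_left _ _
  have hx1b : x1 ≤ b * n ^ (3/4:ℝ) := by rw [hx1]; exact min_le_right _ _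
  have hx1k : 1 / κ ^ (7/4:ℝ) ≤ x1 := by
    rw [hx1]; exact le_min (hX01.trans h.le) hbn
  have hx1p : 0 < x1 := lt_of_lt_of_le (by positivity) hx1k
  have hx1m : m * x ≤ x1 := by
    have m1 : m ≤ 1 := by rw [hm]; exact min_le_left _ _
    have m2 : m ≤ b * κ := by rw [hm]; exact min_le_right _ _
    rw [hx1]
    refine le_min (by nlinarith) ?_
    calc m * x ≤ b * κ * x := mul_le_mul_of_nonneg_right m2 hx.le
      _ = b * (κ * x) := by ring
      _ ≤ _ := mul_le_mul_of_nonneg_left h2 hb0.le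
  obtain ⟨z, hz⟩ : ∃ z : ℝ, z = 1 / (κ ^ (7/4:ℝ) * x1) := ⟨_, rfl⟩
  have hz0 : 0 < z := by rw [hz]; positivity
  have hz1 : z ≤ 1 := by
    rw [hz, div_le_one (by positivity)]
    rw [div_le_iff₀ (by positivity)] at hx1k
    linarith
  have hzp : z ^ (-(4/3):ℝ) = κ ^ (7/3:ℝ) * x1 ^ (4/3:ℝ) := by
    rw [hz, one_div, Real.inv_rpow (by positivity), Real.rpow_neg (by positivity), inv_inv,
      Real.mul_rpow (by positivity) hx1p.le, ← Real.rpow_mul hκ.le]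
    norm_num
  have hy1 : C0 * z ^ (-(4/3):ℝ) ≤ κ * n := by
    rw [hzp]
    have h3 : x1 ^ (4/3:ℝ) ≤ (b * n ^ (3/4:ℝ)) ^ (4/3:ℝ) :=
      Real.rpow_le_rpow hx1p.le hx1b (by norm_num)
    have h4 : (b * n ^ (3/4:ℝ)) ^ (4/3:ℝ) = 1 / (κ ^ (4/3:ℝ) * C0) * n := by
      rw [Real.mul_rpow hb0.le (by positivity), hb, ← Real.rpow_mul (by positivity),
        ← Real.rpow_mul hn.le, show (3/4:ℝ) * (4/3) = 1 by norm_num, Real.rpow_one,
        Real.rpow_one]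
    rw [h4] at h3
    have h5 : κ ^ (7/3:ℝ) = κ * κ ^ (4/3:ℝ) := by
      nth_rewrite 2 [← Real.rpow_one κ]
      rw [← Real.rpow_add hκ]
      norm_num
    calc C0 * (κ ^ (7/3:ℝ) * x1 ^ (4/3:ℝ)) ≤
          C0 * (κ ^ (7/3:ℝ) * (1 / (κ ^ (4/3:ℝ) * C0) * n)) := by gcongr
      _ = κ * n := by rw [h5]; field_simp
  have hyn : κ * n ≤ n := hsh.h_ge.trans hsh.h_le
  have key := hf D n (κ * n) z hsh hz0 hz1 hy1 hyn
  have e1 : z * (κ * n) ^ (7/4:ℝ) = n ^ (7/4:ℝ) / x1 := by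
    rw [hz, Real.mul_rpow hκ.le hn.le]
    field_simp
  rw [hzp, e1] at key
  have e2 : (n / (κ * n)) ^ 2 = (1 / κ) ^ 2 := by
    congr 1
    field_simp
  rw [e2] at key
  have hmono : P D.edges (fun F => (D.len F : ℝ) ≤ n ^ (7/4:ℝ) / x) ≤
      P D.edges (fun F => ∃ k l : ℕ, k ≤ l ∧ l ≤ D.len F ∧
        κ * n ≤ ((sd (D.walk F k).1 (D.walk F l).1 : ℤ) : ℝ) ∧
        ((l - k : ℕ) : ℝ) ≤ n ^ (7/4:ℝ) / x1) := by
    refine Pr_mono hok fun F hF hle => ?_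
    refine ⟨0, D.len F, Nat.zero_le _, le_rfl, ?_, ?_⟩
    · have h3 : D.walk F (D.len F) = Dm.stop := walk_len hD hF
      have h4 : D.walk F 0 = D.start := rfl
      rw [h3, h4]
      have h5 : |D.h - 0| ≤ sd (Dm.start D).1 Dm.stop.1 := le_max_right _ _
      have h6 := le_abs_self (D.h - 0)
      have h7 : D.h ≤ sd (Dm.start D).1 Dm.stop.1 := by omega
      have h8 : (D.h : ℝ) ≤ ((sd (Dm.start D).1 Dm.stop.1 : ℤ) : ℝ) := by exact_mod_cast h7
      exact hsh.h_ge.trans h8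
    · rw [Nat.sub_zero]
      refine hle.trans ?_
      exact div_le_div_of_nonneg_left (by positivity) hx1p hx1x
  refine hmono.trans (key.trans ?_)
  apply mul_le_mul (le_max_right _ _) _ (Real.exp_nonneg _)
    (le_trans (Real.exp_nonneg _) (le_max_left _ _))
  apply Real.exp_le_exp.mpr
  have h3 : m ^ (4/3:ℝ) * x ^ (4/3:ℝ) ≤ x1 ^ (4/3:ℝ) := by
    rw [← Real.mul_rpow hm0.le hx.le]
    exact Real.rpow_le_rpow (by positivity) hx1m (by norm_num)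
  have h4 : c * x ^ (4/3:ℝ) = c0 * κ ^ (7/3:ℝ) * (m ^ (4/3:ℝ) * x ^ (4/3:ℝ)) := by
    rw [hc]; ring
  rw [h4]
  have h5 : 0 < c0 * κ ^ (7/3:ℝ) := by positivity
  have h6 := mul_le_mul_of_nonneg_left h3 h5.le
  linarith

end Pool.Agent.X135.DL
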