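import Pool.Agent.H984R4.NP.One
import Pool.Agent.H984R4.NP.Moments
import Pool.Agent.X135.PL.Tube

/-!
Closed walls near the wired arc of a rectangle: the exploration path stays near the boundary.
-/

set_option autoImplicit false

namespace Pool.Agent.X135.DL

open H974 Finset H342P H984P H984N Pool.Agent.Y244.PC Pool.Agent.X135.PL

/-- invariance along a path -/
theorem reach_inv {G : Set Edg} {Q : Vtx → Prop} (hQ : ∀ e ∈ G, Q (src e) ∧ Q (tgt e)) {v w : Vtx}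
    (hv : Q v) (h : Reach G v w) : Q w := by
  unfold Reach at h
  rcases Relation.ReflTransGen.cases_tail h with h | ⟨v', _, hst⟩
  · rw [h]; exact hv
  · obtain ⟨e, he, hor⟩ := hst
    rcases hor with ⟨_, h2⟩ | ⟨h2, _⟩
    · rw [← h2]; exact (hQ e he).2
    · rw [← h2]; exact (hQ e he).1

/-- the strips at distance `a` of the left, the lower and the upper side are not crossed -/
def Wl (D : Dm) (a : ℤ) (F : Finset Edg) : Prop :=
  ¬ LRc (D.l + a) (D.l + 2 * a) a (D.h - a) F ∧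
  (¬ TBc (D.l + a) D.r a (2 * a) F ∧ ¬ TBc (D.l + a) D.r (D.h - 2 * a) (D.h - a) F)

theorem wl_mono {D : Dm} {a : ℤ} {F G : Finset Edg} (h : F ⊆ G) (hG : Wl D a G) : Wl D a F :=
  ⟨fun k => hG.1 (k.mono h), fun k => hG.2.1 (k.mono h), fun k => hG.2.2 (k.mono h)⟩

theorem wl_decr (S : Finset Edg) (D : Dm) (a : ℤ) : DecrE S (Wl D a) := by
  intro F G hFG _ h h'
  exact h (wl_mono hFG h')

theorem wl_det {D : Dm} (hD : D.Ok) {a : ℤ} (ha : 1 ≤ a) {F : Finset Edg} (hF : F ⊆ D.edges)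
    (h : Wl D a F) {v : Vtx} (hv : v ∈ D.clu F) :
    v.1 < D.l + 2 * a ∨ v.2 < 2 * a ∨ D.h - 2 * a < v.2 := by
  by_contra hcon
  push Not at hcon
  obtain ⟨h1, h2, h3⟩ := hcon
  have hin := clu_inR hD hF hv
  unfold inR at hin
  have hr : Reach (D.cfg F) v (0, 0) := by
    have : Reach (D.cfg F) (0, 0) v := hv
    exact this.symm
  obtain ⟨w, hw, hw', hrw⟩ := first_exit (a := D.l + a) (b := D.r + 1) (c := a) (d := D.h - a)
    (by unfold inR; omega) hr (by right; right; left; show (0:ℤ) ≤ a; omega)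
  unfold inR at hw
  obtain ⟨G, hG⟩ : ∃ G : Set Edg,
      G = D.cfg F ∩ ↑(RE (D.l + a) (D.r + 1) a (D.h - a)) := ⟨_, rfl⟩
  rw [← hG] at hrw
  have hGF : G ⊆ (↑F : Set Edg) := by
    rw [hG]
    rintro ⟨x, y, b⟩ ⟨he, he2⟩
    rcases he with he | he
    · exact he
    · exfalso
      have he2' := Finset.mem_coe.1 he2
      unfold Dm.wir at he
      simp only [Set.mem_ofPred_eq] at he
      cases b
      · rw [mem_RE_false] at he2'
        simp at he
        omega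
      · rw [mem_RE_true] at he2'
        simp at he
        omega
  have hH : ∀ x y : ℤ, ((x, y, true) : Edg) ∈ G → (D.l + a ≤ x ∧ x < D.r) ∧ a ≤ y ∧ y ≤ D.h - a := by
    intro x y hxy
    have k1 := hF (Finset.mem_coe.1 (hGF hxy))
    rw [hG] at hxy
    have k2 := Finset.mem_coe.1 hxy.2
    unfold Dm.edges at k1
    rw [mem_RE_true] at k1 k2
    omega
  have hV : ∀ x y : ℤ, ((x, y, false) : Edg) ∈ G → (D.l + a ≤ x ∧ x ≤ D.r) ∧ a ≤ y ∧ y < D.h - a := by
    intro x y hxy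
    have k1 := hF (Finset.mem_coe.1 (hGF hxy))
    rw [hG] at hxy
    have k2 := Finset.mem_coe.1 hxy.2
    unfold Dm.edges at k1
    rw [mem_RE_false] at k1 k2
    omega
  obtain ⟨g1, g2, g3⟩ := h
  rcases hw' with k | k | k | k
  · obtain ⟨y1, y2, q1, q2, q3, -⟩ := sub_LR (G := G) (a := D.l + a) (b := D.l + 2 * a)
      (c := a) (d := D.h - a) (by omega)
      (fun x y hxy _ _ => (hH x y hxy).2) (fun x y hxy _ _ => (hV x y hxy).2)
      hrw.symm (by omega) (by omega)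
    exact g1 ⟨y1, y2, q1, q2, q3.mono (Set.inter_subset_inter_left _ hGF)⟩
  · have : w.1 ≤ D.r := by
      refine reach_inv (Q := fun z => z.1 ≤ D.r) ?_ hin.1.2 hrw
      rintro ⟨x, y, b⟩ he
      cases b
      · have := hV x y he
        simp only [src_mk, tgt_false]
        omega
      · have := hH x y he
        simp only [src_mk, tgt_true]
        omega
    omega
  · obtain ⟨y1, y2, q1, q2, q3, -⟩ := sub_TB (G := G) (a := D.l + a) (b := D.r)
      (c := a) (d := 2 * a) (by omega)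
      (fun x y hxy _ _ => (hV x y hxy).1) (fun x y hxy _ _ => (hH x y hxy).1)
      hrw.symm (by omega) (by omega)
    exact g2 ⟨y1, y2, q1, q2, q3.mono (Set.inter_subset_inter_left _ hGF)⟩
  · obtain ⟨y1, y2, q1, q2, q3, -⟩ := sub_TB (G := G) (a := D.l + a) (b := D.r)
      (c := D.h - 2 * a) (d := D.h - a) (by omega)
      (fun x y hxy _ _ => (hV x y hxy).1) (fun x y hxy _ _ => (hH x y hxy).1)
      hrw (by omega) (by omega)
    exact g3 ⟨y1, y2, q1, q2, q3.mono (Set.inter_subset_inter_left _ hGF)⟩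

theorem wl_pr {D : Dm} (hD : D.Ok) {a : ℤ} (ha : 3 ≤ a) (h2 : 2 * a ≤ D.h) (hw : 2 * a ≤ D.r - D.l)
    {k : ℕ} (hk1 : D.h ≤ a * k) (hk2 : D.r - D.l ≤ a * k) :
    (1 / 2 : ℝ) ^ (423 * k + 141) ≤ P D.edges (Wl D a) := by
  have hm : 0 < (a - 1) / 2 := by omega
  have ham : a ≤ 4 * ((a - 1) / 2) := by omega
  have q : ∀ h : ℤ, 0 ≤ h → h ≤ a * k → (1 / 2 : ℝ) ^ (141 * k + 47) ≤ 1 - hh (1 / 2) a h := by
    intro h h0 h1
    refine no_cross hm k (by omega) h0 ?_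
    have h3 : a * (k:ℤ) ≤ 4 * ((a - 1) / 2) * k := mul_le_mul_of_nonneg_right ham (by positivity)
    have h4 : 0 ≤ ((a - 1) / 2) * (k:ℤ) := by positivity
    nlinarith
  have s1 : LRE (D.l + a) (D.l + 2 * a) a (D.h - a) ⊆ D.edges := by
    unfold Dm.edges
    rintro ⟨x, y, _ | _⟩ h
    · rw [mem_LRE_false] at h; rw [mem_RE_false]; omega
    · rw [mem_LRE_true] at h; rw [mem_RE_true]; omega
  have hl := hD.l_neg
  have hr := hD.r_pos
  have hh0 := hD.h_pos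
  have s2 : TBE (D.l + a) D.r a (2 * a) ⊆ D.edges := by
    unfold Dm.edges
    rintro ⟨x, y, _ | _⟩ h
    · rw [mem_TBE_false] at h; rw [mem_RE_false]; omega
    · rw [mem_TBE_true] at h; rw [mem_RE_true]; omega
  have s3 : TBE (D.l + a) D.r (D.h - 2 * a) (D.h - a) ⊆ D.edges := by
    unfold Dm.edges
    rintro ⟨x, y, _ | _⟩ h
    · rw [mem_TBE_false] at h; rw [mem_RE_false]; omega
    · rw [mem_TBE_true] at h; rw [mem_RE_true]; omega
  have p1 : (1 / 2 : ℝ) ^ (141 * k + 47) ≤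
      Pr (fun _ => (1/2:ℝ)) D.edges (fun F => ¬ LRc (D.l + a) (D.l + 2 * a) a (D.h - a) F) := by
    rw [Pr_not, pr_LRc _ s1, show D.l + 2 * a - (D.l + a) = a by ring]
    exact q _ (by omega) (by omega)
  have p2 : (1 / 2 : ℝ) ^ (141 * k + 47) ≤
      Pr (fun _ => (1/2:ℝ)) D.edges (fun F => ¬ TBc (D.l + a) D.r a (2 * a) F) := by
    rw [Pr_not, pr_TBc _ s2, show 2 * a - a = a by ring]
    exact q _ (by omega) (by omega)
  have p3 : (1 / 2 : ℝ) ^ (141 * k + 47) ≤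
      Pr (fun _ => (1/2:ℝ)) D.edges
        (fun F => ¬ TBc (D.l + a) D.r (D.h - 2 * a) (D.h - a) F) := by
    rw [Pr_not, pr_TBc _ s3, show D.h - a - (D.h - 2 * a) = a by ring]
    exact q _ (by omega) (by omega)
  have d1 : ∀ x1 x2 y1 y2 : ℤ, DecrE D.edges (fun F => ¬ LRc x1 x2 y1 y2 F) :=
    fun x1 x2 y1 y2 => decr_not (LRc_incr _ _ _ _ _)
  have d2 : ∀ x1 x2 y1 y2 : ℤ, DecrE D.edges (fun F => ¬ TBc x1 x2 y1 y2 F) :=
    fun x1 x2 y1 y2 => decr_not (TBc_incr _ _ _ _ _)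
  have f1 := harris_dec2 hok (d2 (D.l + a) D.r a (2 * a))
    (d2 (D.l + a) D.r (D.h - 2 * a) (D.h - a))
  have dd : DecrE D.edges (fun F => ¬ TBc (D.l + a) D.r a (2 * a) F ∧
      ¬ TBc (D.l + a) D.r (D.h - 2 * a) (D.h - a) F) := by
    intro F G hFG _ h h'
    exact h ⟨fun k => h'.1 (k.mono hFG), fun k => h'.2 (k.mono hFG)⟩
  have f2 := harris_dec2 hok (d1 (D.l + a) (D.l + 2 * a) a (D.h - a)) dd
  have hp : (0:ℝ) ≤ (1 / 2 : ℝ) ^ (141 * k + 47) := by positivity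
  have m1 := (mul_le_mul p2 p3 hp (Pr_nonneg hok _ _)).trans f1
  have m2 := (mul_le_mul p1 m1 (by positivity) (Pr_nonneg hok _ _)).trans f2
  refine le_trans (le_of_eq ?_) m2
  rw [← pow_add, ← pow_add]
  congr 1
  ring

theorem wl_surg {D : Dm} {a : ℤ} {u : Vtx} {ρ : ℤ} (hρ : 1 ≤ ρ) (h4 : 4 * ρ < a)
    {F : Finset Edg} (hN : NC u ρ F)
    (h : Wl D a (F \ RE (u.1 - ρ) (u.1 + ρ) (u.2 - ρ) (u.2 + ρ))) : Wl D a F := by
  obtain ⟨B, hB⟩ : ∃ B : Finset Edg, B = RE (u.1 - ρ) (u.1 + ρ) (u.2 - ρ) (u.2 + ρ) := ⟨_, rfl⟩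
  rw [← hB] at h
  have hball : ∀ (L : Finset Edg) (z w : Vtx), Reach (↑F ∩ ↑L : Set Edg) z w →
      Reach (↑(F \ B) ∩ ↑L : Set Edg) z w ∨
      (inR (u.1 - 2 * ρ) (u.1 + 2 * ρ) (u.2 - 2 * ρ) (u.2 + 2 * ρ) z ∧
        inR (u.1 - 2 * ρ) (u.1 + 2 * ρ) (u.2 - 2 * ρ) (u.2 + 2 * ρ) w) := by
    intro L z w hr
    rcases path_ball (B := (↑B : Set Edg)) hr with h1 | ⟨e, ⟨he, heB⟩, hze⟩
    · left
      refine h1.mono ?_
      rintro x ⟨⟨h2, h3⟩, h5⟩
      refine ⟨?_, h3⟩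
      rw [Finset.mem_coe, Finset.mem_sdiff]
      exact ⟨Finset.mem_coe.1 h2, fun h6 => h5 (Finset.mem_coe.2 h6)⟩
    · right
      have hse : inR (u.1 - ρ) (u.1 + ρ) (u.2 - ρ) (u.2 + ρ) (src e) := by
        have h5 := Finset.mem_coe.1 heB
        rw [hB] at h5
        obtain ⟨x, y, b⟩ := e
        unfold inR
        cases b
        · rw [mem_RE_false] at h5
          simp only [src_mk]; omega
        · rw [mem_RE_true] at h5
          simp only [src_mk]; omega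
      have h6 : Reach (↑F : Set Edg) (src e) z := (hze.mono Set.inter_subset_left).symm
      have h7 : Reach (↑F : Set Edg) (src e) w := h6.trans (hr.mono Set.inter_subset_left)
      exact ⟨nc_det hρ hN hse h6, nc_det hρ hN hse h7⟩
  obtain ⟨g1, g2, g3⟩ := h
  refine ⟨?_, ?_, ?_⟩
  · rintro ⟨y, y', k1, k2, k3⟩
    rcases hball _ _ _ k3 with k4 | ⟨k4, k5⟩
    · exact g1 ⟨y, y', k1, k2, k4⟩
    · unfold inR at k4 k5
      simp only at k4 k5
      omega
  · rintro ⟨y, y', k1, k2, k3⟩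
    rcases hball _ _ _ k3 with k4 | ⟨k4, k5⟩
    · exact g2 ⟨y, y', k1, k2, k4⟩
    · unfold inR at k4 k5
      simp only at k4 k5
      omega
  · rintro ⟨y, y', k1, k2, k3⟩
    rcases hball _ _ _ k3 with k4 | ⟨k4, k5⟩
    · exact g3 ⟨y, y', k1, k2, k4⟩
    · unfold inR at k4 k5
      simp only at k4 k5
      omega

theorem wl_dec {D : Dm} {a : ℤ} {u : Vtx} {ρ : ℤ} (hρ : 3 ≤ ρ) (h4 : 4 * ρ < a)
    (hb : 2 * ρ ≤ D.bd u) {A : Finset Edg → Prop}
    (hA : ∀ F, F ⊆ D.edges → (A F ↔ A (F ∩ RE (u.1 - ρ) (u.1 + ρ) (u.2 - ρ) (u.2 + ρ)))) :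
    kN * P D.edges (fun F => A F ∧ Wl D a F) ≤ P D.edges A * P D.edges (Wl D a) := by
  obtain ⟨B, hB⟩ : ∃ B : Finset Edg, B = RE (u.1 - ρ) (u.1 + ρ) (u.2 - ρ) (u.2 + ρ) := ⟨_, rfl⟩
  rw [← hB] at hA
  have hBU : B ⊆ D.edges := by rw [hB]; exact one_box (by omega)
  have s1 : P D.edges (fun F => A F ∧ Wl D a F) ≤
      P D.edges (fun F => A F ∧ Wl D a (F \ B)) :=
    Pr_mono hok fun F _ h => ⟨h.1, wl_mono Finset.sdiff_subset h.2⟩
  have s2 : P D.edges (fun F => A F ∧ Wl D a (F \ B)) =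
      P D.edges A * P D.edges (fun F => Wl D a (F \ B)) := by
    refine Pr_indep (T := D.edges \ B) hBU Finset.sdiff_subset Finset.disjoint_sdiff hA ?_
    intro F hF
    have e : (F ∩ (D.edges \ B)) \ B = F \ B := by
      ext x
      simp only [Finset.mem_inter, Finset.mem_sdiff]
      constructor
      · rintro ⟨⟨k1, -⟩, k2⟩; exact ⟨k1, k2⟩
      · rintro ⟨k1, k2⟩; exact ⟨⟨k1, hF k1, k2⟩, k2⟩
    rw [e]
  have dB : DecrE D.edges (fun F => Wl D a (F \ B)) := by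
    intro F G hFG _ h h'
    exact h (wl_mono (Finset.sdiff_subset_sdiff hFG le_rfl) h')
  have s3 := harris_dec2 hok (nc_decr D.edges u ρ) dB
  have s4 : P D.edges (fun F => NC u ρ F ∧ Wl D a (F \ B)) ≤ P D.edges (Wl D a) := by
    refine Pr_mono hok fun F _ h => ?_
    refine wl_surg (by omega) h4 h.1 ?_
    rw [← hB]
    exact h.2
  have s5 : kN ≤ P D.edges (NC u ρ) := by
    refine nc_pr hρ ?_
    exact one_box hb
  have s6 : kN * P D.edges (fun F => Wl D a (F \ B)) ≤ P D.edges (Wl D a) :=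
    (mul_le_mul_of_nonneg_right s5 (Pr_nonneg hok _ _)).trans (s3.trans s4)
  calc kN * P D.edges (fun F => A F ∧ Wl D a F) ≤
        kN * (P D.edges A * P D.edges (fun F => Wl D a (F \ B))) := by
          rw [← s2]
          exact mul_le_mul_of_nonneg_left s1 kN_pos.le
    _ = P D.edges A * (kN * P D.edges (fun F => Wl D a (F \ B))) := by ring
    _ ≤ _ := mul_le_mul_of_nonneg_left s6 (Pr_nonneg hok _ _)

end Pool.Agent.X135.DL
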